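import Pool.Agent.Lib.MP_131179_gt.Final2
import Pool.Agent.Lib.MP_131179_gt.Dehn.Main3

/-!
# The growth rate of the number of prime links exists
-/

set_option autoImplicit false

namespace Pool.Agent.Results.MP_131179_gt.PrimeLinks

open Filter Topology Pool.Agent.Lib.MP_131179_gt

/-- For every `n` there are only finitely many prime links with crossing number `n`; if `l(n)` is
their number, then `l(n)^(1/n)` converges. -/
theorem result :
    (∀ n : ℕ, {L : Link | IsPrime L ∧ crossingNumber L = n}.Finite) ∧
      ∃ l : ℝ, 1 ≤ l ∧ Tendsto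
        (fun n : ℕ => ({L : Link | IsPrime L ∧ crossingNumber L = n}.ncard : ℝ) ^ (1 / (n : ℝ)))
        atTop (𝓝 l) := by
  have hD : DehnLemma := by
    intro L h1 h2 h3
    by_contra h4
    exact h3 (Dehn.unknot_of_abelian h1 h4 h2)
  exact ⟨finite_PAll, exists_growth_rate_all hD⟩

end Pool.Agent.Results.MP_131179_gt.PrimeLinks
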